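import Mathlib
import Pool.Agent.H5R3.Pick

/-!
Harnack's inequality for non-negative harmonic functions on a disc, and two consequences.
-/

set_option autoImplicit false

open Complex Set Filter Metric Topology InnerProductSpace

namespace Pool.Agent.V1171.Hardy

theorem harnack_ball {u : ℂ → ℝ} {c w : ℂ} {ρ : ℝ} (hu : HarmonicOnNhd u (ball c ρ))
    (h0 : ∀ z ∈ ball c ρ, 0 ≤ u z) (hw : w ∈ ball c ρ) :
    (ρ - ‖w - c‖) * u w ≤ (ρ + ‖w - c‖) * u c ∧ (ρ - ‖w - c‖) * u c ≤ (ρ + ‖w - c‖) * u w := by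
  have hρ : 0 < ρ := lt_of_le_of_lt dist_nonneg (mem_ball.mp hw)
  obtain ⟨F, hF, hFu⟩ := hu.exists_analyticOnNhd_ball_re_eq
  have hc : c ∈ ball c ρ := mem_ball_self hρ
  have hwn : ‖w - c‖ < ρ := by rw [← dist_eq_norm]; exact mem_ball.mp hw
  have key : ∀ ε : ℝ, 0 < ε →
      (ρ - ‖w - c‖) * (u w + ε) ≤ (ρ + ‖w - c‖) * (u c + ε) ∧
      (ρ - ‖w - c‖) * (u c + ε) ≤ (ρ + ‖w - c‖) * (u w + ε) := by
    intro ε hε
    have hre : ∀ p : ℂ, ∀ z ∈ ball c ρ, 0 < (F z + ε - (F p).im * I).re := by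
      intro p z hz
      have h1 : (F z).re = u z := hFu hz
      have h2 := h0 z hz
      simp [h1]
      linarith
    have hd : ∀ p : ℂ, DifferentiableOn ℂ (fun z => F z + ε - (F p).im * I) (ball c ρ) := fun p =>
      (hF.differentiableOn.add_const _).sub_const _
    have hnorm : ∀ p ∈ ball c ρ, ‖F p + ε - (F p).im * I‖ = u p + ε := by
      intro p hp
      have h1 : (F p).re = u p := hFu hp
      have h2 : F p + ε - (F p).im * I = ((u p + ε : ℝ) : ℂ) := by
        apply Complex.ext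
        · simp [h1]
        · simp
      rw [h2, norm_real, Real.norm_of_nonneg]
      have := h0 p hp
      linarith
    have hlow : ∀ p : ℂ, ∀ z ∈ ball c ρ, u z + ε ≤ ‖F z + ε - (F p).im * I‖ := by
      intro p z hz
      have h1 : (F z).re = u z := hFu hz
      have h2 := Complex.re_le_norm (F z + ε - (F p).im * I)
      simpa [h1] using h2
    have hmul : ∀ A B C D : ℝ, (1 - A / ρ) * B ≤ (1 + A / ρ) * C → (ρ - A) * B ≤ (ρ + A) * C := by
      intro A B C _ h
      have h1 := mul_le_mul_of_nonneg_left h hρ.le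
      have e1 : ρ * ((1 - A / ρ) * B) = (ρ - A) * B := by field_simp
      have e2 : ρ * ((1 + A / ρ) * C) = (ρ + A) * C := by field_simp
      rwa [e1, e2] at h1
    constructor
    · have h1 := (Pool.Agent.H5R3.harnack (hd c) (hre c) hw).1
      have h2 := hmul _ _ _ 0 h1
      rw [hnorm c hc] at h2
      refine le_trans ?_ h2
      exact mul_le_mul_of_nonneg_left (hlow c w hw) (by linarith)
    · have h1 := (Pool.Agent.H5R3.harnack (hd w) (hre w) hw).2
      have h2 := hmul _ _ _ 0 h1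
      rw [hnorm w hw] at h2
      refine le_trans ?_ h2
      exact mul_le_mul_of_nonneg_left (hlow w c hc) (by linarith)
  constructor
  · refine le_of_forall_pos_le_add (fun δ hδ => ?_)
    have h1 := (key (δ / (ρ + ‖w - c‖)) (by positivity)).1
    have h2 : 0 < ρ + ‖w - c‖ := by positivity
    have h3 : (ρ + ‖w - c‖) * (δ / (ρ + ‖w - c‖)) = δ := by field_simp
    have h4 : 0 ≤ (ρ - ‖w - c‖) * (δ / (ρ + ‖w - c‖)) := by
      apply mul_nonneg
      · linarith
      · positivity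
    nlinarith
  · refine le_of_forall_pos_le_add (fun δ hδ => ?_)
    have h1 := (key (δ / (ρ + ‖w - c‖)) (by positivity)).2
    have h2 : 0 < ρ + ‖w - c‖ := by positivity
    have h3 : (ρ + ‖w - c‖) * (δ / (ρ + ‖w - c‖)) = δ := by field_simp
    have h4 : 0 ≤ (ρ - ‖w - c‖) * (δ / (ρ + ‖w - c‖)) := by
      apply mul_nonneg
      · linarith
      · positivity
    nlinarith

/-- Comparison within half the radius. -/
theorem harnack_three {u : ℂ → ℝ} {c w : ℂ} {ρ : ℝ} (hρ : 0 < ρ) (hu : HarmonicOnNhd u (ball c ρ))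
    (h0 : ∀ z ∈ ball c ρ, 0 ≤ u z) (hw : ‖w - c‖ ≤ ρ / 2) : u c ≤ 3 * u w ∧ u w ≤ 3 * u c := by
  have hwb : w ∈ ball c ρ := by rw [mem_ball, dist_eq_norm]; linarith
  obtain ⟨h1, h2⟩ := harnack_ball hu h0 hwb
  have hc0 := h0 c (mem_ball_self hρ)
  have hw0 := h0 w hwb
  have hn := norm_nonneg (w - c)
  constructor
  · have : ρ / 2 * u c ≤ (3 * ρ / 2) * u w := by nlinarith
    nlinarith
  · have : ρ / 2 * u w ≤ (3 * ρ / 2) * u c := by nlinarith
    nlinarith

end Pool.Agent.V1171.Hardy
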