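import Mathlib
import Pool.Agent.V1171.Hardy.Harnack

/-!
Contour integrals over rectangles symmetric about the real axis, and the iteration over the
generations of a self-similar Cantor set.
-/

set_option autoImplicit false

open Complex Set Filter Metric Topology InnerProductSpace MeasureTheory

namespace Pool.Agent.V1171.Hardy

/-- The integral of `F` over the boundary of `[x₁, x₂] × [-h, h]`. -/
noncomputable def J (F : ℂ → ℂ) (x₁ x₂ h : ℝ) : ℂ :=
  (∫ x in x₁..x₂, F (x + (-h : ℝ) * I)) - (∫ x in x₁..x₂, F (x + h * I)) +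
    I • (∫ y in (-h)..h, F (x₂ + y * I)) - I • (∫ y in (-h)..h, F (x₁ + y * I))

theorem J_zero {F : ℂ → ℂ} {x₁ x₂ h : ℝ} (hx : x₁ ≤ x₂) (hh : 0 ≤ h)
    (hF : ∀ z : ℂ, x₁ ≤ z.re → z.re ≤ x₂ → |z.im| ≤ h → DifferentiableAt ℂ F z) :
    J F x₁ x₂ h = 0 := by
  have h1 := Complex.integral_boundary_rect_eq_zero_of_differentiableOn F
    (⟨x₁, -h⟩ : ℂ) (⟨x₂, h⟩ : ℂ) (by
      intro z hz
      simp only at hz
      rw [uIcc_of_le hx, uIcc_of_le (by linarith), Complex.mem_reProdIm] at hz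
      exact (hF z hz.1.1 hz.1.2 (abs_le.mpr ⟨hz.2.1, hz.2.2⟩)).differentiableWithinAt)
  exact h1

theorem horiz_int {F : ℂ → ℂ} {x₁ x₂ y : ℝ} (hx : x₁ ≤ x₂)
    (hF : ∀ x : ℝ, x₁ ≤ x → x ≤ x₂ → ContinuousAt F (x + y * I)) :
    IntervalIntegrable (fun x : ℝ => F (x + y * I)) volume x₁ x₂ := by
  apply ContinuousOn.intervalIntegrable
  rw [uIcc_of_le hx]
  intro x hx
  apply ContinuousAt.continuousWithinAt
  exact ContinuousAt.comp (f := fun x : ℝ => (x : ℂ) + y * I) (hF x hx.1 hx.2) (by fun_prop)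

theorem vert_int {F : ℂ → ℂ} {x y₁ y₂ : ℝ} (hx : y₁ ≤ y₂)
    (hF : ∀ y : ℝ, y₁ ≤ y → y ≤ y₂ → ContinuousAt F (x + y * I)) :
    IntervalIntegrable (fun y : ℝ => F (x + y * I)) volume y₁ y₂ := by
  apply ContinuousOn.intervalIntegrable
  rw [uIcc_of_le hx]
  intro y hy
  apply ContinuousAt.continuousWithinAt
  exact ContinuousAt.comp (f := fun y : ℝ => (x : ℂ) + y * I) (hF y hy.1 hy.2) (by fun_prop)

theorem J_split {F : ℂ → ℂ} {x₁ x₂ x₃ h : ℝ} (h12 : x₁ ≤ x₂) (h23 : x₂ ≤ x₃)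
    (hF : ∀ z : ℂ, x₁ ≤ z.re → z.re ≤ x₃ → |z.im| = |h| → ContinuousAt F z) :
    J F x₁ x₃ h = J F x₁ x₂ h + J F x₂ x₃ h := by
  unfold J
  have e1 : (∫ x in x₁..x₃, F (x + (-h : ℝ) * I)) =
      (∫ x in x₁..x₂, F (x + (-h : ℝ) * I)) + ∫ x in x₂..x₃, F (x + (-h : ℝ) * I) := by
    rw [intervalIntegral.integral_add_adjacent_intervals]
    · exact horiz_int h12 (fun x a b => hF _ (by simpa using a) (by simpa using b.trans h23) (by simp))
    · exact horiz_int h23 (fun x a b => hF _ (by simpa using h12.trans a) (by simpa using b) (by simp))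
  have e2 : (∫ x in x₁..x₃, F (x + h * I)) =
      (∫ x in x₁..x₂, F (x + h * I)) + ∫ x in x₂..x₃, F (x + h * I) := by
    rw [intervalIntegral.integral_add_adjacent_intervals]
    · exact horiz_int h12 (fun x a b => hF _ (by simpa using a) (by simpa using b.trans h23) (by simp))
    · exact horiz_int h23 (fun x a b => hF _ (by simpa using h12.trans a) (by simpa using b) (by simp))
  rw [e1, e2]
  ring

theorem J_height {F : ℂ → ℂ} {x₁ x₂ h h' : ℝ} (hx : x₁ ≤ x₂) (hh : 0 ≤ h) (hh' : h ≤ h')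
    (hF : ∀ z : ℂ, x₁ ≤ z.re → z.re ≤ x₂ → h ≤ |z.im| → |z.im| ≤ h' → DifferentiableAt ℂ F z)
    (hV1 : ∀ y : ℝ, |y| ≤ h' → ContinuousAt F (x₁ + y * I))
    (hV2 : ∀ y : ℝ, |y| ≤ h' → ContinuousAt F (x₂ + y * I)) :
    J F x₁ x₂ h' = J F x₁ x₂ h := by
  have up := Complex.integral_boundary_rect_eq_zero_of_differentiableOn F
    (⟨x₁, h⟩ : ℂ) (⟨x₂, h'⟩ : ℂ) (by
      intro z hz
      simp only at hz
      rw [uIcc_of_le hx, uIcc_of_le hh', Complex.mem_reProdIm] at hz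
      have h0 : 0 ≤ z.im := hh.trans hz.2.1
      exact (hF z hz.1.1 hz.1.2 (by rw [abs_of_nonneg h0]; exact hz.2.1)
        (by rw [abs_of_nonneg h0]; exact hz.2.2)).differentiableWithinAt)
  have dn := Complex.integral_boundary_rect_eq_zero_of_differentiableOn F
    (⟨x₁, -h'⟩ : ℂ) (⟨x₂, -h⟩ : ℂ) (by
      intro z hz
      simp only at hz
      rw [uIcc_of_le hx, uIcc_of_le (by linarith), Complex.mem_reProdIm] at hz
      have h0 : z.im ≤ 0 := hz.2.2.trans (by linarith)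
      exact (hF z hz.1.1 hz.1.2 (by rw [abs_of_nonpos h0]; linarith [hz.2.2])
        (by rw [abs_of_nonpos h0]; linarith [hz.2.1])).differentiableWithinAt)
  simp only at up dn
  have e1 : ∀ x : ℝ, (∀ y : ℝ, |y| ≤ h' → ContinuousAt F (x + y * I)) →
      (∫ y in (-h')..h', F (x + y * I)) =
      (∫ y in (-h')..(-h), F (x + y * I)) + (∫ y in (-h)..h, F (x + y * I)) +
        ∫ y in h..h', F (x + y * I) := by
    intro x hV
    have i1 : IntervalIntegrable (fun y : ℝ => F (x + y * I)) volume (-h') (-h) :=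
      vert_int (by linarith) (fun y a b => hV y (abs_le.mpr ⟨by linarith, by linarith⟩))
    have i2 : IntervalIntegrable (fun y : ℝ => F (x + y * I)) volume (-h) h :=
      vert_int (by linarith) (fun y a b => hV y (abs_le.mpr ⟨by linarith, by linarith⟩))
    have i3 : IntervalIntegrable (fun y : ℝ => F (x + y * I)) volume h h' :=
      vert_int (by linarith) (fun y a b => hV y (abs_le.mpr ⟨by linarith, by linarith⟩))
    rw [intervalIntegral.integral_add_adjacent_intervals i1 i2,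
      intervalIntegral.integral_add_adjacent_intervals (i1.trans i2) i3]
  unfold J
  rw [e1 x₁ hV1, e1 x₂ hV2]
  simp only [smul_eq_mul] at up dn ⊢
  linear_combination up + dn

/-- The boundary of the square with centre `c` and half-side `ℓ`. -/
def bd (c ℓ : ℝ) : Set ℂ := {z | |z.re - c| ≤ ℓ ∧ |z.im| ≤ ℓ ∧ (|z.re - c| = ℓ ∨ |z.im| = ℓ)}

theorem J_bound {F : ℂ → ℂ} {c ℓ M : ℝ} (hℓ : 0 ≤ ℓ) (hF : ∀ z ∈ bd c ℓ, ‖F z‖ ≤ M) :
    ‖J F (c - ℓ) (c + ℓ) ℓ‖ ≤ 8 * ℓ * M := by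
  have hh : ∀ y : ℝ, |y| = ℓ → ‖∫ x in (c - ℓ)..(c + ℓ), F (x + y * I)‖ ≤ 2 * ℓ * M := by
    intro y hy
    have := intervalIntegral.norm_integral_le_of_norm_le_const (a := c - ℓ) (b := c + ℓ) (C := M)
      (f := fun x : ℝ => F (x + y * I)) (by
        intro x hx
        rw [uIoc_of_le (by linarith)] at hx
        apply hF
        refine ⟨?_, ?_, Or.inr ?_⟩
        · simp only [add_re, ofReal_re, mul_re, I_re, mul_zero, ofReal_im, I_im, mul_one, sub_self,
            add_zero]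
          exact abs_le.mpr ⟨by linarith [hx.1], by linarith [hx.2]⟩
        · simp [hy]
        · simp [hy])
    refine this.trans (le_of_eq ?_)
    rw [show c + ℓ - (c - ℓ) = 2 * ℓ by ring, abs_of_nonneg (by positivity)]
    ring
  have hv : ∀ x : ℝ, |x - c| = ℓ → ‖∫ y in (-ℓ)..ℓ, F (x + y * I)‖ ≤ 2 * ℓ * M := by
    intro x hx'
    have := intervalIntegral.norm_integral_le_of_norm_le_const (a := -ℓ) (b := ℓ) (C := M)
      (f := fun y : ℝ => F (x + y * I)) (by
        intro y hy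
        rw [uIoc_of_le (by linarith)] at hy
        apply hF
        refine ⟨?_, ?_, Or.inl ?_⟩
        · simp [hx']
        · simp only [add_im, ofReal_im, mul_im, ofReal_re, I_im, mul_one, I_re, mul_zero, add_zero,
            zero_add]
          exact abs_le.mpr ⟨by linarith [hy.1], by linarith [hy.2]⟩
        · simp [hx'])
    refine this.trans (le_of_eq ?_)
    rw [show ℓ - -ℓ = 2 * ℓ by ring, abs_of_nonneg (by positivity)]
    ring
  unfold J
  have e1 := hh (-ℓ) (by rw [abs_neg, abs_of_nonneg hℓ])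
  have e2 := hh ℓ (abs_of_nonneg hℓ)
  have e3 := hv (c + ℓ) (by rw [add_sub_cancel_left, abs_of_nonneg hℓ])
  have e4 := hv (c - ℓ) (by rw [show c - ℓ - c = -ℓ by ring, abs_neg, abs_of_nonneg hℓ])
  have n3 : ‖I • ∫ y in (-ℓ)..ℓ, F (((c + ℓ : ℝ) : ℂ) + y * I)‖ ≤ 2 * ℓ * M := by
    rw [norm_smul, norm_I, one_mul]; exact e3
  have n4 : ‖I • ∫ y in (-ℓ)..ℓ, F (((c - ℓ : ℝ) : ℂ) + y * I)‖ ≤ 2 * ℓ * M := by
    rw [norm_smul, norm_I, one_mul]; exact e4
  calc _ ≤ 2 * ℓ * M + 2 * ℓ * M + 2 * ℓ * M + 2 * ℓ * M := by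
        refine (norm_sub_le _ _).trans (add_le_add ?_ n4)
        refine (norm_add_le _ _).trans (add_le_add ?_ n3)
        exact (norm_sub_le _ _).trans (add_le_add e1 e2)
    _ = 8 * ℓ * M := by ring

/-- The copy `c + ℓ E` of `E ⊆ ℝ`, in `ℂ`. -/
def cop (E : Set ℝ) (c ℓ : ℝ) : Set ℂ := {z | ∃ e ∈ E, z = ((c + ℓ * e : ℝ) : ℂ)}

/-- The vertical strip of half-width `2ℓ` about `c`, without the copy `c + ℓ E`. -/
def V (E : Set ℝ) (c ℓ : ℝ) : Set ℂ := {z | |z.re - c| < 2 * ℓ ∧ z ∉ cop E c ℓ}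

/-- `E` lies in `[-1/2, 1/2]` and is covered by its two copies of ratio `a`. -/
structure IsSelf (a : ℝ) (E : Set ℝ) : Prop where
  sub : ∀ e ∈ E, |e| ≤ 1 / 2
  self : ∀ e ∈ E, (∃ e' ∈ E, e = a * e' - (1 - a) / 2) ∨ (∃ e' ∈ E, e = a * e' + (1 - a) / 2)

theorem mem_cop_im {E : Set ℝ} {c ℓ : ℝ} {z : ℂ} (hz : z ∈ cop E c ℓ) : z.im = 0 := by
  obtain ⟨e, _, rfl⟩ := hz
  simp

theorem mem_cop_re {a : ℝ} {E : Set ℝ} (hE : IsSelf a E) {c ℓ : ℝ} (hℓ : 0 ≤ ℓ) {z : ℂ}
    (hz : z ∈ cop E c ℓ) : |z.re - c| ≤ ℓ / 2 := by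
  obtain ⟨e, he, rfl⟩ := hz
  rw [ofReal_re, add_sub_cancel_left, abs_mul, abs_of_nonneg hℓ]
  have := hE.sub e he
  nlinarith

theorem mem_cop_child {a : ℝ} {E : Set ℝ} (hE : IsSelf a E) {c ℓ : ℝ} {z : ℂ}
    (hz : z ∈ cop E c ℓ) :
    z ∈ cop E (c - (1 - a) / 2 * ℓ) (a * ℓ) ∨ z ∈ cop E (c + (1 - a) / 2 * ℓ) (a * ℓ) := by
  obtain ⟨e, he, rfl⟩ := hz
  rcases hE.self e he with ⟨e', he', rfl⟩ | ⟨e', he', rfl⟩
  · left
    exact ⟨e', he', by congr 1; ring⟩
  · right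
    exact ⟨e', he', by congr 1; ring⟩

/-- The Harnack step from the square of a child to the square of its parent. -/
theorem harnack_step {a : ℝ} (ha : 0 < a) (ha' : a ≤ 1 / 10) {E : Set ℝ} (hE : IsSelf a E)
    {c ℓ : ℝ} (hℓ : 0 < ℓ) {u : ℂ → ℝ} (hu : HarmonicOnNhd u (V E c ℓ))
    (h0 : ∀ z ∈ V E c ℓ, 0 ≤ u z) {B : ℝ} (hB : ∀ z ∈ bd c ℓ, u z ≤ B) {s : ℝ} (hs : s = 1 ∨ s = -1)
    {z : ℂ} (hz : z ∈ bd (c + s * ((1 - a) / 2) * ℓ) (a * ℓ)) : u z ≤ 24 / a * B := by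
  obtain ⟨hz1, hz2, hz3⟩ := hz
  have hal : 0 < a * ℓ := by positivity
  have hal' : a * ℓ ≤ ℓ / 10 := by nlinarith
  have hs1 : |s| = 1 := by rcases hs with rfl | rfl <;> simp
  -- distance to the centre of the parent
  have hzc : |z.re - c| ≤ ℓ / 2 + a * ℓ / 2 := by
    have h1 : z.re - c = (z.re - (c + s * ((1 - a) / 2) * ℓ)) + s * ((1 - a) / 2 * ℓ) := by ring
    rw [h1]
    refine (abs_add_le _ _).trans ?_
    rw [abs_mul, hs1, one_mul, abs_of_nonneg (by nlinarith : 0 ≤ (1 - a) / 2 * ℓ)]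
    nlinarith
  -- the small ball
  have hball1 : ball z (a * ℓ / 2) ⊆ V E c ℓ := by
    intro w hw
    rw [mem_ball, dist_eq_norm] at hw
    have hre : |w.re - z.re| < a * ℓ / 2 := by
      have := abs_re_le_norm (w - z)
      rw [sub_re] at this
      linarith
    have him : |w.im - z.im| < a * ℓ / 2 := by
      have := abs_im_le_norm (w - z)
      rw [sub_im] at this
      linarith
    refine ⟨?_, ?_⟩
    · have h1 : w.re - c = (w.re - z.re) + (z.re - c) := by ring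
      rw [h1]
      refine (abs_add_le _ _).trans_lt ?_
      nlinarith
    · intro hwE
      have hwim := mem_cop_im hwE
      rw [hwim, zero_sub, abs_neg] at him
      have hzre : |z.re - (c + s * ((1 - a) / 2) * ℓ)| = a * ℓ := by
        rcases hz3 with h | h
        · exact h
        · rw [h] at him; linarith
      have h2 : |z.re - (c + s * ((1 - a) / 2) * ℓ)| ≤
          |w.re - (c + s * ((1 - a) / 2) * ℓ)| + |w.re - z.re| := by
        have h3 : z.re - (c + s * ((1 - a) / 2) * ℓ) =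
          (w.re - (c + s * ((1 - a) / 2) * ℓ)) + -(w.re - z.re) := by ring
        rw [h3]
        refine (abs_add_le _ _).trans ?_
        rw [abs_neg]
      have hup : |w.re - (c + s * ((1 - a) / 2) * ℓ)| < 3 / 2 * (a * ℓ) := by
        have h3 : w.re - (c + s * ((1 - a) / 2) * ℓ) =
          (z.re - (c + s * ((1 - a) / 2) * ℓ)) + (w.re - z.re) := by ring
        rw [h3]
        refine (abs_add_le _ _).trans_lt ?_
        linarith
      -- own copy
      have own : ∀ c', c' = c + s * ((1 - a) / 2) * ℓ → w ∈ cop E c' (a * ℓ) → False := by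
        intro c' hc' hw'
        have h4 := mem_cop_re hE hal.le hw'
        rw [hc'] at h4
        linarith
      -- sibling
      have sib : ∀ c', c' = c - s * ((1 - a) / 2) * ℓ → w ∈ cop E c' (a * ℓ) → False := by
        intro c' hc' hw'
        have h4 := mem_cop_re hE hal.le hw'
        have h5 : |s * ((1 - a) * ℓ)| = (1 - a) * ℓ := by
          rw [abs_mul, hs1, one_mul, abs_of_nonneg (by nlinarith)]
        have h6 : s * ((1 - a) * ℓ) = (w.re - c') + -(w.re - (c + s * ((1 - a) / 2) * ℓ)) := by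
          rw [hc']; ring
        have h7 := abs_add_le (w.re - c') (-(w.re - (c + s * ((1 - a) / 2) * ℓ)))
        rw [← h6, h5, abs_neg] at h7
        nlinarith
      rcases mem_cop_child hE hwE with h | h
      · rcases hs with rfl | rfl
        · exact sib _ (by ring) h
        · exact own _ (by ring) h
      · rcases hs with rfl | rfl
        · exact own _ (by ring) h
        · exact sib _ (by ring) h
  -- the sign of the imaginary part
  obtain ⟨t, ht, htz⟩ : ∃ t : ℝ, (t = 1 ∨ t = -1) ∧ t * z.im = |z.im| := by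
    rcases le_total 0 z.im with h | h
    · exact ⟨1, Or.inl rfl, by rw [abs_of_nonneg h]; ring⟩
    · exact ⟨-1, Or.inr rfl, by rw [abs_of_nonpos h]; ring⟩
  have ht1 : |t| = 1 := by rcases ht with rfl | rfl <;> simp
  have htt : t * t = 1 := by rcases ht with rfl | rfl <;> norm_num
  set z1 : ℂ := z + ((t * (a * ℓ / 4) : ℝ) : ℂ) * I with hz1def
  have hz1re : z1.re = z.re := by simp [hz1def]
  have hz1im : z1.im = z.im + t * (a * ℓ / 4) := by simp [hz1def]
  have s1 : u z ≤ 3 * u z1 := by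
    refine (harnack_three (w := z1) (by positivity) (fun w hw => hu w (hball1 hw))
      (fun w hw => h0 w (hball1 hw)) ?_).1
    have : z1 - z = ((t * (a * ℓ / 4) : ℝ) : ℂ) * I := by rw [hz1def]; ring
    rw [this, norm_mul, norm_I, mul_one, norm_real, Real.norm_eq_abs, abs_mul, ht1,
      abs_of_nonneg (by positivity)]
    linarith
  -- the large ball
  set z2 : ℂ := ⟨z.re, t * ℓ⟩ with hz2def
  have hball2 : ball z2 ℓ ⊆ V E c ℓ := by
    intro w hw
    rw [mem_ball, dist_eq_norm] at hw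
    have hre : |w.re - z.re| < ℓ := by
      have := abs_re_le_norm (w - z2)
      rw [sub_re] at this
      exact lt_of_le_of_lt this hw
    have him : |w.im - t * ℓ| < ℓ := by
      have := abs_im_le_norm (w - z2)
      rw [sub_im] at this
      exact lt_of_le_of_lt this hw
    refine ⟨?_, ?_⟩
    · have h1 : w.re - c = (w.re - z.re) + (z.re - c) := by ring
      rw [h1]
      refine (abs_add_le _ _).trans_lt ?_
      nlinarith
    · intro hwE
      have hwim := mem_cop_im hwE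
      rw [hwim, zero_sub, abs_neg, abs_mul, ht1, one_mul, abs_of_pos hℓ] at him
      exact lt_irrefl _ him
  have hz12 : ‖z1 - z2‖ = ℓ - (|z.im| + a * ℓ / 4) := by
    have h1 : z1 - z2 = ((t * -(ℓ - (|z.im| + a * ℓ / 4)) : ℝ) : ℂ) * I := by
      apply Complex.ext
      · simp [hz1re, hz2def]
      · have h2 : z.im = t * |z.im| := by
          rw [← htz, ← mul_assoc, htt, one_mul]
        simp only [sub_im, hz1im, hz2def, mul_im, ofReal_re, I_im, mul_one, ofReal_im, I_re,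
          mul_zero, add_zero]
        linear_combination h2
    rw [h1, norm_mul, norm_I, mul_one, norm_real, Real.norm_eq_abs, abs_mul, ht1, one_mul, abs_neg,
      abs_of_nonneg]
    nlinarith
  have hin : z1 ∈ ball z2 ℓ := by
    rw [mem_ball, dist_eq_norm, hz12]
    have := abs_nonneg z.im
    nlinarith
  have s2 := (harnack_ball (fun w hw => hu w (hball2 hw)) (fun w hw => h0 w (hball2 hw)) hin).1
  rw [hz12] at s2
  have hz2B : u z2 ≤ B := by
    apply hB
    refine ⟨?_, ?_, Or.inr ?_⟩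
    · show |z.re - c| ≤ ℓ
      linarith
    · show |t * ℓ| ≤ ℓ
      rw [abs_mul, ht1, one_mul, abs_of_pos hℓ]
    · show |t * ℓ| = ℓ
      rw [abs_mul, ht1, one_mul, abs_of_pos hℓ]
  have hu1 : 0 ≤ u z1 := h0 z1 (hball2 hin)
  have hu2 : 0 ≤ u z2 := h0 z2 (hball2 (mem_ball_self hℓ))
  have h3 : 0 ≤ |z.im| := abs_nonneg _
  have s3 : (a * ℓ / 4) * u z1 ≤ 2 * ℓ * B := by
    calc (a * ℓ / 4) * u z1 ≤ (ℓ - (ℓ - (|z.im| + a * ℓ / 4))) * u z1 := by
          apply mul_le_mul_of_nonneg_right _ hu1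
          linarith
      _ ≤ (ℓ + (ℓ - (|z.im| + a * ℓ / 4))) * u z2 := s2
      _ ≤ (2 * ℓ) * u z2 := by
          apply mul_le_mul_of_nonneg_right _ hu2
          linarith
      _ ≤ 2 * ℓ * B := mul_le_mul_of_nonneg_left hz2B (by positivity)
  have s4 : u z1 ≤ 8 / a * B := by
    have h5 : ℓ * (a * u z1) ≤ ℓ * (8 * B) := by linarith
    have h6 : a * u z1 ≤ 8 * B := le_of_mul_le_mul_left h5 hℓ
    rw [div_mul_eq_mul_div, le_div_iff₀ ha]
    linarith
  calc u z ≤ 3 * u z1 := s1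
    _ ≤ 3 * (8 / a * B) := by linarith
    _ = 24 / a * B := by ring

theorem V_child {a : ℝ} (ha : 0 < a) (ha' : a ≤ 1 / 10) {E : Set ℝ} (hE : IsSelf a E)
    {c ℓ : ℝ} (hℓ : 0 < ℓ) {s : ℝ} (hs : s = 1 ∨ s = -1) :
    V E (c + s * ((1 - a) / 2) * ℓ) (a * ℓ) ⊆ V E c ℓ := by
  intro w hw
  obtain ⟨hw1, hw2⟩ := hw
  have hal : 0 < a * ℓ := by positivity
  have hal' : a * ℓ ≤ ℓ / 10 := by nlinarith
  have hs1 : |s| = 1 := by rcases hs with rfl | rfl <;> simp
  refine ⟨?_, ?_⟩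
  · have h1 : w.re - c = (w.re - (c + s * ((1 - a) / 2) * ℓ)) + s * ((1 - a) / 2 * ℓ) := by ring
    rw [h1]
    refine (abs_add_le _ _).trans_lt ?_
    rw [abs_mul, hs1, one_mul, abs_of_nonneg (by nlinarith : 0 ≤ (1 - a) / 2 * ℓ)]
    nlinarith
  · intro hwE
    have sib : ∀ c', c' = c - s * ((1 - a) / 2) * ℓ → w ∈ cop E c' (a * ℓ) → False := by
      intro c' hc' hw'
      have h4 := mem_cop_re hE hal.le hw'
      have h5 : |s * ((1 - a) * ℓ)| = (1 - a) * ℓ := by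
        rw [abs_mul, hs1, one_mul, abs_of_nonneg (by nlinarith)]
      have h6 : s * ((1 - a) * ℓ) = (w.re - c') + -(w.re - (c + s * ((1 - a) / 2) * ℓ)) := by
        rw [hc']; ring
      have h7 := abs_add_le (w.re - c') (-(w.re - (c + s * ((1 - a) / 2) * ℓ)))
      rw [← h6, h5, abs_neg] at h7
      nlinarith
    have own : ∀ c', c' = c + s * ((1 - a) / 2) * ℓ → w ∈ cop E c' (a * ℓ) → False := by
      intro c' hc' hw'
      rw [hc'] at hw'
      exact hw2 hw'
    rcases mem_cop_child hE hwE with h | h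
    · rcases hs with rfl | rfl
      · exact sib _ (by ring) h
      · exact own _ (by ring) h
    · rcases hs with rfl | rfl
      · exact own _ (by ring) h
      · exact sib _ (by ring) h

/-- Splitting of the contour of the parent into the contours of the children. -/
theorem J_children {a : ℝ} (ha : 0 < a) (ha' : a ≤ 1 / 10) {E : Set ℝ} (hE : IsSelf a E)
    {c ℓ : ℝ} (hℓ : 0 < ℓ) {F : ℂ → ℂ} (hF : ∀ z ∈ V E c ℓ, DifferentiableAt ℂ F z) :
    J F (c - ℓ) (c + ℓ) ℓ =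
      J F (c + (-1) * ((1 - a) / 2) * ℓ - a * ℓ) (c + (-1) * ((1 - a) / 2) * ℓ + a * ℓ) (a * ℓ) +
      J F (c + 1 * ((1 - a) / 2) * ℓ - a * ℓ) (c + 1 * ((1 - a) / 2) * ℓ + a * ℓ) (a * ℓ) := by
  have hal : 0 < a * ℓ := by positivity
  have hal' : a * ℓ ≤ ℓ / 10 := by nlinarith
  have hV : ∀ z : ℂ, |z.re - c| ≤ ℓ → (z.im ≠ 0 ∨ |z.re - c| > ℓ / 2) → z ∈ V E c ℓ := by
    intro z h1 h2
    refine ⟨by linarith, fun h => ?_⟩
    rcases h2 with h2 | h2
    · exact h2 (mem_cop_im h)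
    · exact absurd (mem_cop_re hE hℓ.le h) (not_le.mpr h2)
  have hgap : ∀ z : ℂ, |z.re - c| ≤ ℓ →
      (z.re ≤ c + (-1) * ((1 - a) / 2) * ℓ - a * ℓ ∨
        (c + (-1) * ((1 - a) / 2) * ℓ + a * ℓ ≤ z.re ∧ z.re ≤ c + 1 * ((1 - a) / 2) * ℓ - a * ℓ) ∨
        c + 1 * ((1 - a) / 2) * ℓ + a * ℓ ≤ z.re) → z ∈ V E c ℓ := by
    intro z h1 h2
    refine ⟨by linarith, fun h => ?_⟩
    rcases mem_cop_child hE h with h | h
    · have h3 := abs_le.mp (mem_cop_re hE hal.le h)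
      rcases h2 with h2 | h2 | h2
      · nlinarith [h3.1, h3.2]
      · nlinarith [h3.1, h3.2, h2.1, h2.2]
      · nlinarith [h3.1, h3.2]
    · have h3 := abs_le.mp (mem_cop_re hE hal.le h)
      rcases h2 with h2 | h2 | h2
      · nlinarith [h3.1, h3.2]
      · nlinarith [h3.1, h3.2, h2.1, h2.2]
      · nlinarith [h3.1, h3.2]
  have hcont : ∀ z ∈ V E c ℓ, ContinuousAt F z := fun z hz => (hF z hz).continuousAt
  -- lower the height
  have e0 : J F (c - ℓ) (c + ℓ) ℓ = J F (c - ℓ) (c + ℓ) (a * ℓ) := by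
    apply J_height (by linarith) hal.le (by linarith)
    · intro z h1 h2 h3 h4
      apply hF z (hV z (abs_le.mpr ⟨by linarith, by linarith⟩) (Or.inl ?_))
      intro h5
      rw [h5, abs_zero] at h3
      linarith
    · intro y _
      apply hcont _ (hV _ _ (Or.inr _))
      · have : ((((c - ℓ : ℝ) : ℂ) + y * I).re - c) = -ℓ := by simp
        rw [this, abs_neg, abs_of_pos hℓ]
      · have : ((((c - ℓ : ℝ) : ℂ) + y * I).re - c) = -ℓ := by simp
        rw [this, abs_neg, abs_of_pos hℓ]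
        linarith
    · intro y _
      apply hcont _ (hV _ _ (Or.inr _))
      · have : ((((c + ℓ : ℝ) : ℂ) + y * I).re - c) = ℓ := by simp
        rw [this, abs_of_pos hℓ]
      · have : ((((c + ℓ : ℝ) : ℂ) + y * I).re - c) = ℓ := by simp
        rw [this, abs_of_pos hℓ]
        linarith
  have hline : ∀ z : ℂ, c - ℓ ≤ z.re → z.re ≤ c + ℓ → |z.im| = |a * ℓ| → ContinuousAt F z := by
    intro z h1 h2 h3
    apply hcont _ (hV z (abs_le.mpr ⟨by linarith, by linarith⟩) (Or.inl ?_))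
    intro h5
    rw [h5, abs_zero, abs_of_pos hal] at h3
    linarith
  rw [e0]
  set c1 := c + (-1) * ((1 - a) / 2) * ℓ with hc1
  set c2 := c + 1 * ((1 - a) / 2) * ℓ with hc2
  have o1 : c - ℓ ≤ c1 - a * ℓ := by rw [hc1]; nlinarith
  have o2 : c1 - a * ℓ ≤ c1 + a * ℓ := by linarith
  have o3 : c1 + a * ℓ ≤ c2 - a * ℓ := by rw [hc1, hc2]; nlinarith
  have o4 : c2 - a * ℓ ≤ c2 + a * ℓ := by linarith
  have o5 : c2 + a * ℓ ≤ c + ℓ := by rw [hc2]; nlinarith
  rw [J_split (x₂ := c1 - a * ℓ) o1 (by linarith) (fun z h1 h2 h3 => hline z h1 h2 h3),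
    J_split (x₁ := c1 - a * ℓ) (x₂ := c1 + a * ℓ) o2 (by linarith)
      (fun z h1 h2 h3 => hline z (by linarith) h2 h3),
    J_split (x₁ := c1 + a * ℓ) (x₂ := c2 - a * ℓ) o3 (by linarith)
      (fun z h1 h2 h3 => hline z (by linarith) h2 h3),
    J_split (x₁ := c2 - a * ℓ) (x₂ := c2 + a * ℓ) o4 o5
      (fun z h1 h2 h3 => hline z (by linarith) h2 h3)]
  have z1 : J F (c - ℓ) (c1 - a * ℓ) (a * ℓ) = 0 := by
    apply J_zero o1 hal.le
    intro z h1 h2 h3
    exact hF z (hgap z (abs_le.mpr ⟨by linarith, by linarith⟩) (Or.inl h2))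
  have z2 : J F (c1 + a * ℓ) (c2 - a * ℓ) (a * ℓ) = 0 := by
    apply J_zero o3 hal.le
    intro z h1 h2 h3
    exact hF z (hgap z (abs_le.mpr ⟨by linarith, by linarith⟩) (Or.inr (Or.inl ⟨h1, h2⟩)))
  have z3 : J F (c2 + a * ℓ) (c + ℓ) (a * ℓ) = 0 := by
    apply J_zero o5 hal.le
    intro z h1 h2 h3
    exact hF z (hgap z (abs_le.mpr ⟨by linarith, by linarith⟩) (Or.inr (Or.inr h1)))
  rw [z1, z2, z3]
  ring

/-- The main estimate. -/
theorem J_le {a : ℝ} (ha : 0 < a) (ha' : a ≤ 1 / 10) {E : Set ℝ} (hE : IsSelf a E) (n : ℕ) :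
    ∀ (c ℓ : ℝ), 0 < ℓ → ∀ (F : ℂ → ℂ) (u : ℂ → ℝ) (B : ℝ), 0 ≤ B →
      (∀ z ∈ V E c ℓ, DifferentiableAt ℂ F z) → HarmonicOnNhd u (V E c ℓ) →
      (∀ z ∈ V E c ℓ, ‖F z‖ ^ 2 ≤ u z) → (∀ z ∈ bd c ℓ, u z ≤ B) →
      ‖J F (c - ℓ) (c + ℓ) ℓ‖ ≤ 8 * ℓ * √B * (2 * a * √(24 / a)) ^ n := by
  induction n with
  | zero =>
    intro c ℓ hℓ F u B hB hF hu hFu huB
    rw [pow_zero, mul_one]
    apply J_bound hℓ.le
    intro z hz
    have hzV : z ∈ V E c ℓ := by
      refine ⟨by linarith [hz.1], fun h => ?_⟩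
      have h1 := mem_cop_im h
      have h2 := mem_cop_re hE hℓ.le h
      rcases hz.2.2 with h3 | h3
      · linarith
      · rw [h1, abs_zero] at h3; linarith
    apply Real.le_sqrt_of_sq_le
    exact (hFu z hzV).trans (huB z hz)
  | succ n ih =>
    intro c ℓ hℓ F u B hB hF hu hFu huB
    have h0 : ∀ z ∈ V E c ℓ, 0 ≤ u z := fun z hz => le_trans (by positivity) (hFu z hz)
    have child : ∀ s : ℝ, (s = 1 ∨ s = -1) →
        ‖J F (c + s * ((1 - a) / 2) * ℓ - a * ℓ) (c + s * ((1 - a) / 2) * ℓ + a * ℓ) (a * ℓ)‖ ≤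
        8 * (a * ℓ) * √(24 / a * B) * (2 * a * √(24 / a)) ^ n := by
      intro s hs
      have hsub := V_child ha ha' hE (c := c) hℓ hs
      exact ih _ _ (by positivity) F u (24 / a * B) (by positivity) (fun z hz => hF z (hsub hz))
        (fun z hz => hu z (hsub hz)) (fun z hz => hFu z (hsub hz))
        (fun z hz => harnack_step ha ha' hE hℓ hu h0 huB hs hz)
    rw [J_children ha ha' hE hℓ hF]
    refine (norm_add_le _ _).trans ?_
    refine (add_le_add (child (-1) (Or.inr rfl)) (child 1 (Or.inl rfl))).trans (le_of_eq ?_)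
    rw [Real.sqrt_mul (by positivity), pow_succ]
    ring

end Pool.Agent.V1171.Hardy
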