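import Mathlib
import Pool.Agent.V1171.Hardy.Contour

/-!
A self-similar Cantor set of ratio `1/1024` and a probability measure of finite logarithmic energy
on it.
-/

set_option autoImplicit false

open Complex Set Filter Metric Topology MeasureTheory

namespace Pool.Agent.V1171.Hardy

/-- The ratio. -/
noncomputable def ra : ℝ := 1 / 1024

theorem ra_pos : 0 < ra := by unfold ra; norm_num

theorem ra_lt : ra < 1 := by unfold ra; norm_num

/-- The sign of a digit. -/
noncomputable def sg (b : Bool) : ℝ := if b then 1 / 2 else -(1 / 2)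

theorem abs_sg (b : Bool) : |sg b| = 1 / 2 := by cases b <;> simp [sg]

/-- The coding of the Cantor set. -/
noncomputable def phi (d : ℕ → Bool) : ℝ := ∑' k, sg (d k) * ((1 - ra) * ra ^ k)

theorem geo : HasSum (fun k : ℕ => (1 / 2) * ((1 - ra) * ra ^ k)) (1 / 2) := by
  have h := (hasSum_geometric_of_lt_one ra_pos.le ra_lt).mul_left ((1 / 2) * (1 - ra))
  have h2 : (1 / 2) * (1 - ra) * (1 - ra)⁻¹ = 1 / 2 := by
    have : 1 - ra ≠ 0 := by have := ra_lt; linarith
    field_simp
  rw [h2] at h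
  have e : (fun k : ℕ => (1 / 2) * ((1 - ra) * ra ^ k)) = fun k : ℕ => (1 / 2) * (1 - ra) * ra ^ k := by
    funext k
    ring
  rw [e]
  exact h

theorem phi_bound (d : ℕ → Bool) (k : ℕ) :
    ‖sg (d k) * ((1 - ra) * ra ^ k)‖ ≤ (1 / 2) * ((1 - ra) * ra ^ k) := by
  have h1 := ra_pos
  have h2 := ra_lt
  rw [norm_mul, Real.norm_eq_abs, abs_sg, Real.norm_of_nonneg]
  apply mul_nonneg
  · linarith
  · positivity

theorem phi_summable (d : ℕ → Bool) : Summable (fun k => sg (d k) * ((1 - ra) * ra ^ k)) :=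
  Summable.of_norm_bounded geo.summable (phi_bound d)

theorem abs_phi (d : ℕ → Bool) : |phi d| ≤ 1 / 2 :=
  tsum_of_norm_bounded geo (phi_bound d)

theorem phi_succ (d : ℕ → Bool) :
    phi d = sg (d 0) * (1 - ra) + ra * phi (fun k => d (k + 1)) := by
  unfold phi
  rw [(phi_summable d).tsum_eq_zero_add, pow_zero, mul_one, ← tsum_mul_left]
  congr 1
  apply tsum_congr
  intro k
  ring

theorem continuous_phi : Continuous phi := by
  apply continuous_tsum (u := fun k => (1 / 2) * ((1 - ra) * ra ^ k))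
  · intro k
    apply Continuous.mul _ continuous_const
    exact (continuous_of_discreteTopology (f := sg)).comp (continuous_apply k)
  · exact geo.summable
  · intro k d
    exact phi_bound d k

/-- The Cantor set. -/
noncomputable def CE : Set ℝ := Set.range phi

theorem isSelf_CE : IsSelf ra CE := by
  constructor
  · rintro _ ⟨d, rfl⟩
    exact abs_phi d
  · rintro _ ⟨d, rfl⟩
    rw [phi_succ]
    cases h : d 0
    · left
      exact ⟨_, ⟨_, rfl⟩, by simp [sg]; ring⟩
    · right
      exact ⟨_, ⟨_, rfl⟩, by simp [sg]; ring⟩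

theorem cop_eq : cop CE 0 1 = Set.range (fun d => (phi d : ℂ)) := by
  ext z
  constructor
  · rintro ⟨_, ⟨d, rfl⟩, rfl⟩
    exact ⟨d, by simp⟩
  · rintro ⟨d, rfl⟩
    exact ⟨phi d, ⟨d, rfl⟩, by simp⟩

theorem isCompact_cop : IsCompact (cop CE 0 1) := by
  rw [cop_eq]
  exact isCompact_range (continuous_ofReal.comp continuous_phi)

theorem phi_sub_ge (N : ℕ) : ∀ d d' : ℕ → Bool, (∀ k < N, d k = d' k) → d N ≠ d' N →
    ra ^ N / 2 ≤ |phi d - phi d'| := by
  induction N with
  | zero =>
    intro d d' _ h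
    rw [phi_succ d, phi_succ d', pow_zero]
    have h1 := abs_le.mp (abs_phi (fun k => d (k + 1)))
    have h2 := abs_le.mp (abs_phi (fun k => d' (k + 1)))
    have hr : ra = 1 / 1024 := rfl
    set p := phi (fun k => d (k + 1))
    set q := phi (fun k => d' (k + 1))
    rw [hr]
    cases hd : d 0 <;> cases hd' : d' 0
    · rw [hd, hd'] at h; exact absurd rfl h
    · rw [abs_of_nonpos]
      · simp only [sg, Bool.false_eq_true, if_false, if_true]
        linarith [h1.1, h1.2, h2.1, h2.2]
      · simp only [sg, Bool.false_eq_true, if_false, if_true]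
        linarith [h1.1, h1.2, h2.1, h2.2]
    · rw [abs_of_nonneg]
      · simp only [sg, Bool.false_eq_true, if_false, if_true]
        linarith [h1.1, h1.2, h2.1, h2.2]
      · simp only [sg, Bool.false_eq_true, if_false, if_true]
        linarith [h1.1, h1.2, h2.1, h2.2]
    · rw [hd, hd'] at h; exact absurd rfl h
  | succ N ih =>
    intro d d' h1 h2
    rw [phi_succ d, phi_succ d', h1 0 (Nat.succ_pos _)]
    have h3 := ih (fun k => d (k + 1)) (fun k => d' (k + 1)) (fun k hk => h1 (k + 1) (by omega)) h2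
    have e : sg (d' 0) * (1 - ra) + ra * phi (fun k => d (k + 1)) -
        (sg (d' 0) * (1 - ra) + ra * phi (fun k => d' (k + 1))) =
        ra * (phi (fun k => d (k + 1)) - phi (fun k => d' (k + 1))) := by ring
    rw [e, abs_mul, abs_of_pos ra_pos, pow_succ]
    nlinarith [ra_pos]

/-- The binary digits. -/
noncomputable def dig (t : ℝ) (k : ℕ) : Bool := decide (⌊2 ^ (k + 1) * t⌋ % 2 = 1)

theorem dig_split {t t' : ℝ} (ht : t ∈ Ico (0 : ℝ) 1) (ht' : t' ∈ Ico (0 : ℝ) 1) (hne : t ≠ t') :
    ∃ N : ℕ, (∀ k < N, dig t k = dig t' k) ∧ dig t N ≠ dig t' N ∧ |t - t'| ≤ (1 / 2) ^ N := by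
  classical
  have hex : ∃ N : ℕ, ⌊2 ^ (N + 1) * t⌋ ≠ ⌊2 ^ (N + 1) * t'⌋ := by
    have hpos : 0 < |t - t'| := abs_pos.mpr (sub_ne_zero.mpr hne)
    obtain ⟨N, hN⟩ := pow_unbounded_of_one_lt (1 / |t - t'|) (one_lt_two : (1 : ℝ) < 2)
    refine ⟨N, fun h => ?_⟩
    have h1 := Int.abs_sub_lt_one_of_floor_eq_floor h
    rw [← mul_sub, abs_mul, abs_of_pos (by positivity : (0 : ℝ) < 2 ^ (N + 1))] at h1
    rw [div_lt_iff₀ hpos] at hN
    have h2 : (2 : ℝ) ^ N * |t - t'| ≤ 2 ^ (N + 1) * |t - t'| := by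
      apply mul_le_mul_of_nonneg_right _ hpos.le
      exact pow_le_pow_right₀ (by norm_num) (by omega)
    linarith
  set N := Nat.find hex with hN
  have hspec : ⌊2 ^ (N + 1) * t⌋ ≠ ⌊2 ^ (N + 1) * t'⌋ := Nat.find_spec hex
  have hmin : ∀ k < N, ⌊2 ^ (k + 1) * t⌋ = ⌊2 ^ (k + 1) * t'⌋ := fun k hk => by
    have := Nat.find_min hex hk
    simpa using this
  have hprev : ⌊2 ^ N * t⌋ = ⌊2 ^ N * t'⌋ := by
    rcases Nat.eq_zero_or_pos N with h | h
    · rw [h, pow_zero, one_mul, one_mul, Int.floor_eq_zero_iff.mpr ht, Int.floor_eq_zero_iff.mpr ht']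
    · obtain ⟨m, hm⟩ := Nat.exists_eq_succ_of_ne_zero h.ne'
      rw [hm]
      exact hmin m (by omega)
  have hdiv : ∀ s : ℝ, ⌊2 ^ (N + 1) * s⌋ / 2 = ⌊2 ^ N * s⌋ := by
    intro s
    have h1 : (2 : ℝ) ^ N * s = (2 ^ (N + 1) * s) / 2 := by rw [pow_succ]; ring
    rw [h1]
    have := Int.floor_div_natCast (2 ^ (N + 1) * s) 2
    simpa using this.symm
  refine ⟨N, fun k hk => ?_, ?_, ?_⟩
  · unfold dig
    rw [hmin k hk]
  · unfold dig
    have h1 := hdiv t
    have h2 := hdiv t'
    rw [hprev] at h1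
    intro h3
    rw [decide_eq_decide] at h3
    apply hspec
    omega
  · have h1 := Int.abs_sub_lt_one_of_floor_eq_floor hprev
    rw [← mul_sub, abs_mul, abs_of_pos (by positivity : (0 : ℝ) < 2 ^ N)] at h1
    rw [one_div, inv_pow, ← one_div, le_div_iff₀ (by positivity)]
    linarith

theorem phi_dig_ge {t t' : ℝ} (ht : t ∈ Ico (0 : ℝ) 1) (ht' : t' ∈ Ico (0 : ℝ) 1) (hne : t ≠ t') :
    |t - t'| ^ 10 / 2 ≤ |phi (dig t) - phi (dig t')| := by
  obtain ⟨N, h1, h2, h3⟩ := dig_split ht ht' hne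
  refine le_trans ?_ (phi_sub_ge N _ _ h1 h2)
  have h4 : |t - t'| ^ 10 ≤ ((1 / 2) ^ N) ^ 10 := pow_le_pow_left₀ (abs_nonneg _) h3 10
  have h5 : (((1 : ℝ) / 2) ^ N) ^ 10 = ra ^ N := by
    rw [← pow_mul, mul_comm, pow_mul]
    congr 1
    unfold ra
    norm_num
  rw [h5] at h4
  linarith

theorem measurable_dig : Measurable dig := by
  rw [measurable_pi_iff]
  intro k
  have h1 : Measurable (fun t : ℝ => ⌊2 ^ (k + 1) * t⌋) :=
    Int.measurable_floor.comp (measurable_const_mul _)
  exact (Measurable.of_discrete (f := fun m : ℤ => decide (m % 2 = 1))).comp h1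

/-- The parametrisation of the Cantor set. -/
noncomputable def par (t : ℝ) : ℂ := (phi (dig t) : ℂ)

theorem measurable_par : Measurable par :=
  Complex.measurable_ofReal.comp (continuous_phi.measurable.comp measurable_dig)

/-- Lebesgue measure on `[0, 1)`. -/
noncomputable def nu : Measure ℝ := volume.restrict (Ico 0 1)

instance : IsProbabilityMeasure nu := ⟨by simp [nu]⟩

/-- The measure on the Cantor set. -/
noncomputable def mu : Measure ℂ := nu.map par

instance : IsProbabilityMeasure mu := Measure.isProbabilityMeasure_map measurable_par.aemeasurable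

theorem mu_compl : mu (cop CE 0 1)ᶜ = 0 := by
  rw [mu, Measure.map_apply measurable_par isCompact_cop.measurableSet.compl]
  have : par ⁻¹' (cop CE 0 1)ᶜ = ∅ := by
    ext t
    simp only [mem_preimage, mem_compl_iff, mem_empty_iff_false, iff_false, not_not]
    rw [cop_eq]
    exact ⟨dig t, rfl⟩
  rw [this, measure_empty]

theorem par_inj {t t' : ℝ} (ht : t ∈ Ico (0 : ℝ) 1) (ht' : t' ∈ Ico (0 : ℝ) 1)
    (h : par t = par t') : t = t' := by
  by_contra hne
  have h1 := phi_dig_ge ht ht' hne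
  have h2 : phi (dig t) = phi (dig t') := Complex.ofReal_injective h
  rw [h2, sub_self, abs_zero] at h1
  have h3 : 0 < |t - t'| := abs_pos.mpr (sub_ne_zero.mpr hne)
  have h4 : 0 < |t - t'| ^ 10 := by positivity
  linarith

theorem noAtoms_mu : NoAtoms mu := by
  constructor
  intro x
  rw [mu, Measure.map_apply measurable_par (measurableSet_singleton x), nu,
    Measure.restrict_apply (measurable_par (measurableSet_singleton x))]
  apply Set.Subsingleton.measure_zero
  rintro t ⟨h1, h2⟩ t' ⟨h3, h4⟩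
  exact par_inj h2 h4 ((mem_singleton_iff.mp h1).trans (mem_singleton_iff.mp h3).symm)

theorem integrable_log_sub : Integrable (fun p : ℝ × ℝ => Real.log |p.1 - p.2|) (nu.prod nu) := by
  have hf : Integrable (indicator (Ico (0 : ℝ) 1) (fun _ => (1 : ℝ))) volume := by
    rw [integrable_indicator_iff measurableSet_Ico]
    exact integrableOn_const (by simp)
  have hg : Integrable (indicator (Ioc (-1 : ℝ) 1) Real.log) volume := by
    rw [integrable_indicator_iff measurableSet_Ioc]
    exact (intervalIntegrable_iff_integrableOn_Ioc_of_le (by norm_num)).mp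
      intervalIntegral.intervalIntegrable_log'
  have h := Integrable.convolution_integrand (L := ContinuousLinearMap.mul ℝ ℝ) hf hg
  have h2 := h.restrict (s := Ico (0 : ℝ) 1 ×ˢ Ico (0 : ℝ) 1)
  rw [← Measure.prod_restrict] at h2
  refine h2.congr ?_
  have hae : ∀ᵐ p ∂(nu.prod nu), p ∈ (Ico (0 : ℝ) 1) ×ˢ (Ico (0 : ℝ) 1) := by
    rw [nu, Measure.prod_restrict]
    exact ae_restrict_mem (measurableSet_Ico.prod measurableSet_Ico)
  filter_upwards [hae] with p hp
  obtain ⟨hp1, hp2⟩ := hp
  rw [indicator_of_mem hp2, indicator_of_mem (show p.1 - p.2 ∈ Ioc (-1 : ℝ) 1 from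
    ⟨by linarith [hp1.1, hp2.2], by linarith [hp1.2, hp2.1]⟩)]
  simp

theorem energy : Integrable (fun p : ℂ × ℂ => Real.log ‖p.1 - p.2‖) (mu.prod mu) := by
  have hmeas : Measurable (fun p : ℂ × ℂ => Real.log ‖p.1 - p.2‖) :=
    Real.measurable_log.comp (measurable_fst.sub measurable_snd).norm
  rw [mu, Measure.map_prod_map _ _ measurable_par measurable_par,
    integrable_map_measure hmeas.aestronglyMeasurable
      (measurable_par.prodMap measurable_par).aemeasurable]
  have hdom : Integrable (fun p : ℝ × ℝ => Real.log 2 + 10 * |Real.log (|p.1 - p.2|)|)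
      (nu.prod nu) := (integrable_const _).add (integrable_log_sub.abs.const_mul 10)
  refine hdom.mono' (hmeas.comp (measurable_par.prodMap measurable_par)).aestronglyMeasurable ?_
  have hae : ∀ᵐ p ∂(nu.prod nu), p ∈ (Ico (0 : ℝ) 1) ×ˢ (Ico (0 : ℝ) 1) := by
    rw [nu, Measure.prod_restrict]
    exact ae_restrict_mem (measurableSet_Ico.prod measurableSet_Ico)
  filter_upwards [hae] with p hp
  obtain ⟨hp1, hp2⟩ := hp
  have hlog2 : 0 < Real.log 2 := Real.log_pos (by norm_num)
  simp only [Function.comp, Prod.map]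
  have hn : ‖par p.1 - par p.2‖ = |phi (dig p.1) - phi (dig p.2)| := by
    unfold par
    rw [← ofReal_sub, norm_real, Real.norm_eq_abs]
  rw [hn, Real.norm_eq_abs]
  by_cases hne : p.1 = p.2
  · rw [hne, sub_self, sub_self, abs_zero, Real.log_zero, abs_zero]
    positivity
  · have h1 := phi_dig_ge hp1 hp2 hne
    have h2 : |phi (dig p.1) - phi (dig p.2)| ≤ 1 := by
      have := abs_sub (phi (dig p.1)) (phi (dig p.2))
      have h3 := abs_phi (dig p.1)
      have h4 := abs_phi (dig p.2)
      linarith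
    have h3 : 0 < |p.1 - p.2| := abs_pos.mpr (sub_ne_zero.mpr hne)
    have h4 : 0 < |p.1 - p.2| ^ 10 / 2 := by positivity
    have h5 : Real.log |phi (dig p.1) - phi (dig p.2)| ≤ 0 := Real.log_nonpos (abs_nonneg _) h2
    rw [abs_of_nonpos h5]
    have h6 := Real.log_le_log h4 h1
    rw [Real.log_div (by positivity) (by norm_num), Real.log_pow] at h6
    have h7 : -Real.log |p.1 - p.2| ≤ |Real.log (|p.1 - p.2|)| := neg_le_abs _
    push_cast at h6
    linarith

end Pool.Agent.V1171.Hardy
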