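import Mathlib
import Pool.Agent.V1171.Hardy.Contour

/-!
Functions holomorphic off a thin self-similar Cantor set, whose square has a harmonic majorant,
are constant.
-/

set_option autoImplicit false

open Complex Set Filter Metric Topology InnerProductSpace MeasureTheory

namespace Pool.Agent.V1171.Hardy

theorem isCompact_bd (c ℓ : ℝ) : IsCompact (bd c ℓ) := by
  apply Metric.isCompact_of_isClosed_isBounded
  · have h1 : Continuous fun z : ℂ => |z.re - c| := by fun_prop
    have h2 : Continuous fun z : ℂ => |z.im| := by fun_prop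
    have e : bd c ℓ = {z : ℂ | |z.re - c| ≤ ℓ} ∩ ({z : ℂ | |z.im| ≤ ℓ} ∩
      ({z : ℂ | |z.re - c| = ℓ} ∪ {z : ℂ | |z.im| = ℓ})) := by
      ext z; simp [bd]
    rw [e]
    exact (isClosed_le h1 continuous_const).inter ((isClosed_le h2 continuous_const).inter
      ((isClosed_eq h1 continuous_const).union (isClosed_eq h2 continuous_const)))
  · rw [isBounded_iff_forall_norm_le]
    refine ⟨|c| + ℓ + ℓ, fun z hz => ?_⟩
    have h1 := Complex.norm_le_abs_re_add_abs_im z
    have h2 : |z.re| ≤ |z.re - c| + |c| := by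
      have := abs_add_le (z.re - c) c
      simpa using this
    have h3 := hz.1
    have h4 := hz.2.1
    linarith

theorem bd_norm {T : ℝ} {z : ℂ} (hz : z ∈ bd 0 T) : T ≤ ‖z‖ := by
  rcases hz.2.2 with h | h
  · rw [sub_zero] at h
    rw [← h]; exact abs_re_le_norm z
  · rw [← h]; exact abs_im_le_norm z

section

variable {a : ℝ} {E : Set ℝ}

theorem J_eq_zero (ha : 0 < a) (ha' : a ≤ 1 / 10) (hq : 2 * a * √(24 / a) < 1)
    (hE : IsSelf a E) {F : ℂ → ℂ} {u : ℂ → ℝ}
    (hF : ∀ z ∉ cop E 0 1, DifferentiableAt ℂ F z) (hu : HarmonicOnNhd u (cop E 0 1)ᶜ)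
    (hFu : ∀ z ∉ cop E 0 1, ‖F z‖ ^ 2 ≤ u z) {T : ℝ} (hT : 1 ≤ T) : J F (-T) T T = 0 := by
  have hVsub : V E 0 1 ⊆ (cop E 0 1)ᶜ := fun z hz => hz.2
  have hout : ∀ z : ℂ, (z.im ≠ 0 ∨ 1 / 2 < |z.re|) → z ∉ cop E 0 1 := by
    intro z hz h
    rcases hz with h1 | h1
    · exact h1 (mem_cop_im h)
    · have := mem_cop_re hE zero_le_one h
      rw [sub_zero] at this
      linarith
  have hbdsub : bd 0 1 ⊆ (cop E 0 1)ᶜ := by
    intro z hz
    apply hout
    rcases hz.2.2 with h | h
    · right; rw [sub_zero] at h; linarith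
    · left; intro h0; rw [h0, abs_zero] at h; norm_num at h
  have hcont : ContinuousOn u (bd 0 1) := by
    intro z hz
    exact ((hu z (hbdsub hz)).1.continuousAt).continuousWithinAt
  obtain ⟨B, hB⟩ := (isCompact_bd 0 1).exists_bound_of_continuousOn hcont
  have hB0 : 0 ≤ max B 0 := le_max_right _ _
  have h1 : J F (0 - 1) (0 + 1) 1 = 0 := by
    have h2 := fun n => J_le ha ha' hE n 0 1 one_pos F u (max B 0) hB0 (fun z hz => hF z hz.2)
      (fun z hz => hu z (hVsub hz)) (fun z hz => hFu z hz.2)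
      (fun z hz => ((le_abs_self _).trans (hB z hz)).trans (le_max_left _ _))
    have h3 : Tendsto (fun n : ℕ => 8 * 1 * √(max B 0) * (2 * a * √(24 / a)) ^ n) atTop (𝓝 0) := by
      have := (tendsto_pow_atTop_nhds_zero_of_lt_one (by positivity) hq).const_mul
        (8 * 1 * √(max B 0))
      simpa using this
    have h4 : ‖J F (0 - 1) (0 + 1) 1‖ ≤ 0 := ge_of_tendsto' h3 h2
    exact norm_le_zero_iff.mp h4
  rw [zero_sub, zero_add] at h1
  have hcontF : ∀ z ∉ cop E 0 1, ContinuousAt F z := fun z hz => (hF z hz).continuousAt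
  have e0 : J F (-T) T T = J F (-T) T 1 := by
    apply J_height (by linarith) zero_le_one hT
    · intro z _ _ h3 _
      apply hF z (hout z (Or.inl ?_))
      intro h5
      rw [h5, abs_zero] at h3
      linarith
    · intro y _
      apply hcontF _ (hout _ (Or.inr _))
      have : (((-T : ℝ) : ℂ) + y * I).re = -T := by simp
      rw [this, abs_neg, abs_of_pos (by linarith)]
      linarith
    · intro y _
      apply hcontF _ (hout _ (Or.inr _))
      have : (((T : ℝ) : ℂ) + y * I).re = T := by simp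
      rw [this, abs_of_pos (by linarith)]
      linarith
  have hline : ∀ z : ℂ, |z.im| = |(1 : ℝ)| → ContinuousAt F z := by
    intro z h3
    apply hcontF _ (hout z (Or.inl ?_))
    intro h5
    rw [h5, abs_zero, abs_one] at h3
    linarith
  rw [e0, J_split (x₂ := -1) (by linarith) (by linarith) (fun z _ _ h3 => hline z h3),
    J_split (x₁ := -1) (x₂ := 1) (by linarith) (by linarith) (fun z _ _ h3 => hline z h3), h1]
  have z1 : J F (-T) (-1) 1 = 0 := by
    apply J_zero (by linarith) zero_le_one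
    intro z _ h2 _
    apply hF z (hout z (Or.inr _))
    rw [abs_of_nonpos (by linarith)]
    linarith
  have z2 : J F 1 T 1 = 0 := by
    apply J_zero (by linarith) zero_le_one
    intro z h1 _ _
    apply hF z (hout z (Or.inr _))
    rw [abs_of_nonneg (by linarith)]
    linarith
  rw [z1, z2]
  ring

/-- Growth of positive harmonic functions at infinity. -/
theorem growth (hE : IsSelf a E) {u : ℂ → ℝ} (hu : HarmonicOnNhd u (cop E 0 1)ᶜ)
    (h0 : ∀ z ∉ cop E 0 1, 0 ≤ u z) {T : ℝ} (hT : 1 ≤ T) {z : ℂ} (hz : z ∈ bd 0 T) :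
    u z ≤ 20000 * (u I + u (-I)) * T := by
  have hT0 : 0 < T := by linarith
  have hout : ∀ z : ℂ, (z.im ≠ 0 ∨ 1 / 2 < |z.re|) → z ∉ cop E 0 1 := by
    intro z hz h
    rcases hz with h1 | h1
    · exact h1 (mem_cop_im h)
    · have := mem_cop_re hE zero_le_one h
      rw [sub_zero] at this
      linarith
  have hball1 : ball z (T / 2) ⊆ (cop E 0 1)ᶜ := by
    intro w hw
    rw [mem_ball, dist_eq_norm] at hw
    have hre : |w.re - z.re| < T / 2 := by
      have := abs_re_le_norm (w - z)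
      rw [sub_re] at this
      linarith
    have him : |w.im - z.im| < T / 2 := by
      have := abs_im_le_norm (w - z)
      rw [sub_im] at this
      linarith
    intro hwE
    have hwim := mem_cop_im hwE
    have hwre := mem_cop_re hE zero_le_one hwE
    rw [sub_zero] at hwre
    rcases hz.2.2 with h | h
    · rw [sub_zero] at h
      have h1 : |z.re| ≤ |w.re| + |w.re - z.re| := by
        have := abs_add_le (w.re) (-(w.re - z.re))
        rw [abs_neg] at this
        simpa using this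
      linarith
    · rw [hwim, zero_sub, abs_neg, h] at him
      linarith
  obtain ⟨t, ht, htz⟩ : ∃ t : ℝ, (t = 1 ∨ t = -1) ∧ t * z.im = |z.im| := by
    rcases le_total 0 z.im with h | h
    · exact ⟨1, Or.inl rfl, by rw [abs_of_nonneg h]; ring⟩
    · exact ⟨-1, Or.inr rfl, by rw [abs_of_nonpos h]; ring⟩
  have ht1 : |t| = 1 := by rcases ht with rfl | rfl <;> simp
  have htt : t * t = 1 := by rcases ht with rfl | rfl <;> norm_num
  set z1 : ℂ := z + ((t * (T / 4) : ℝ) : ℂ) * I with hz1def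
  have hz1re : z1.re = z.re := by simp [hz1def]
  have hz1im : z1.im = z.im + t * (T / 4) := by simp [hz1def]
  have s1 : u z ≤ 3 * u z1 := by
    refine (harnack_three (w := z1) (by positivity) (fun w hw => hu w (hball1 hw))
      (fun w hw => h0 w (hball1 hw)) ?_).1
    have : z1 - z = ((t * (T / 4) : ℝ) : ℂ) * I := by rw [hz1def]; ring
    rw [this, norm_mul, norm_I, mul_one, norm_real, Real.norm_eq_abs, abs_mul, ht1,
      abs_of_nonneg (by positivity)]
    linarith
  set c : ℂ := ⟨0, t * (16 * T)⟩ with hc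
  have hball2 : ball c (16 * T) ⊆ (cop E 0 1)ᶜ := by
    intro w hw
    rw [mem_ball, dist_eq_norm] at hw
    apply hout
    left
    intro hw0
    have := abs_im_le_norm (w - c)
    rw [sub_im, hw0, hc, zero_sub, abs_neg, abs_mul, ht1, one_mul, abs_of_pos (by positivity)] at this
    linarith
  -- distance of `z1` from `c`
  set y : ℝ := |z.im| + T / 4 with hy
  have hy1 : T / 4 ≤ y := by have := abs_nonneg z.im; linarith
  have hy2 : y ≤ 5 * T / 4 := by have := hz.2.1; linarith
  have hx2 : z.re ^ 2 ≤ T ^ 2 := by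
    have := hz.1
    rw [sub_zero] at this
    rw [← sq_abs]
    exact pow_le_pow_left₀ (abs_nonneg _) this 2
  have hr2 : ‖z1 - c‖ ^ 2 = z.re ^ 2 + (16 * T - y) ^ 2 := by
    rw [← Complex.normSq_eq_norm_sq, Complex.normSq_apply, sub_re, sub_im, hz1re, hz1im, hc]
    simp only [sub_zero]
    have h2 : z.im = t * |z.im| := by rw [← htz, ← mul_assoc, htt, one_mul]
    rw [h2, hy]
    linear_combination (|z.im| + T / 4 - 16 * T) ^ 2 * htt
  set r : ℝ := ‖z1 - c‖ with hr
  have hr0 : 0 ≤ r := norm_nonneg _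
  have hdiff : 6 * T ^ 2 ≤ (16 * T) ^ 2 - r ^ 2 := by
    rw [hr2]
    nlinarith
  have hrlt : r < 16 * T := by
    have : r ^ 2 < (16 * T) ^ 2 := by nlinarith
    exact lt_of_pow_lt_pow_left₀ 2 (by positivity) this
  have hin : z1 ∈ ball c (16 * T) := by rw [mem_ball, dist_eq_norm]; exact hrlt
  have s2 := (harnack_ball (fun w hw => hu w (hball2 hw)) (fun w hw => h0 w (hball2 hw)) hin).1
  rw [← hr] at s2
  have hu1 : 0 ≤ u z1 := h0 z1 (hball2 hin)
  have huc : 0 ≤ u c := h0 c (hball2 (mem_ball_self (by positivity)))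
  have s3 : u z1 ≤ 200 * u c := by
    have h1 : (3 * T / 16) * u z1 ≤ (32 * T) * u c := by
      calc (3 * T / 16) * u z1 ≤ (16 * T - r) * u z1 := by
            apply mul_le_mul_of_nonneg_right _ hu1
            nlinarith
        _ ≤ (16 * T + r) * u c := s2
        _ ≤ (32 * T) * u c := by
            apply mul_le_mul_of_nonneg_right _ huc
            linarith
    have h2 : T * (3 / 16 * u z1) ≤ T * (32 * u c) := by linarith
    have h3 := le_of_mul_le_mul_left h2 hT0
    linarith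
  -- from `c` to `±I`
  set p : ℂ := ⟨0, t⟩ with hp
  have hpc : ‖p - c‖ = 16 * T - 1 := by
    have : p - c = ((t * -(16 * T - 1) : ℝ) : ℂ) * I := by
      apply Complex.ext
      · simp [hp, hc]
      · simp [hp, hc]; ring
    rw [this, norm_mul, norm_I, mul_one, norm_real, Real.norm_eq_abs, abs_mul, ht1, one_mul, abs_neg,
      abs_of_nonneg (by linarith)]
  have hpin : p ∈ ball c (16 * T) := by rw [mem_ball, dist_eq_norm, hpc]; linarith
  have s4 := (harnack_ball (fun w hw => hu w (hball2 hw)) (fun w hw => h0 w (hball2 hw)) hpin).2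
  rw [hpc] at s4
  have hup : 0 ≤ u p := h0 p (hball2 hpin)
  have s5 : u c ≤ 32 * T * u p := by
    have h1 : (16 * T - (16 * T - 1)) * u c = u c := by ring
    rw [h1] at s4
    refine s4.trans (mul_le_mul_of_nonneg_right (by linarith) hup)
  have hI : 0 ≤ u I := h0 I (hout I (Or.inl (by simp)))
  have hI' : 0 ≤ u (-I) := h0 (-I) (hout (-I) (Or.inl (by simp)))
  have s6 : u p ≤ u I + u (-I) := by
    rcases ht with h | h
    · have : p = I := by rw [hp, h]; apply Complex.ext <;> simp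
      rw [this]; linarith
    · have : p = -I := by rw [hp, h]; apply Complex.ext <;> simp
      rw [this]; linarith
  calc u z ≤ 3 * (200 * (32 * T * (u I + u (-I)))) := by
        have : 32 * T * u p ≤ 32 * T * (u I + u (-I)) := mul_le_mul_of_nonneg_left s6 (by positivity)
        linarith
    _ ≤ 20000 * (u I + u (-I)) * T := by
        have : 0 ≤ (u I + u (-I)) * T := by positivity
        nlinarith

end

theorem J_const_mul (k : ℂ) (F : ℂ → ℂ) (x₁ x₂ h : ℝ) :
    J (fun z => k * F z) x₁ x₂ h = k * J F x₁ x₂ h := by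
  unfold J
  simp only [intervalIntegral.integral_const_mul, smul_eq_mul]
  ring

theorem J_add {F G : ℂ → ℂ} {T : ℝ} (hT : 0 ≤ T) (hF : ∀ z ∈ bd 0 T, ContinuousAt F z)
    (hG : ∀ z ∈ bd 0 T, ContinuousAt G z) :
    J (fun z => F z + G z) (-T) T T = J F (-T) T T + J G (-T) T T := by
  have hh : ∀ {H : ℂ → ℂ}, (∀ z ∈ bd 0 T, ContinuousAt H z) → ∀ y : ℝ, |y| = T →
      IntervalIntegrable (fun x : ℝ => H (x + y * I)) volume (-T) T := by
    intro H hH y hy
    apply horiz_int (by linarith)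
    intro x h1 h2
    apply hH
    refine ⟨?_, ?_, Or.inr ?_⟩
    · simp; exact abs_le.mpr ⟨h1, h2⟩
    · simp [hy]
    · simp [hy]
  have hv : ∀ {H : ℂ → ℂ}, (∀ z ∈ bd 0 T, ContinuousAt H z) → ∀ x : ℝ, |x| = T →
      IntervalIntegrable (fun y : ℝ => H (x + y * I)) volume (-T) T := by
    intro H hH x hx
    apply vert_int (by linarith)
    intro y h1 h2
    apply hH
    refine ⟨?_, ?_, Or.inl ?_⟩
    · simp [hx]
    · simp; exact abs_le.mpr ⟨h1, h2⟩
    · simp [hx]
  have aT : |T| = T := abs_of_nonneg hT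
  have aT' : |-T| = T := by rw [abs_neg, aT]
  unfold J
  rw [intervalIntegral.integral_add (hh hF _ aT') (hh hG _ aT'),
    intervalIntegral.integral_add (hh hF _ aT) (hh hG _ aT),
    intervalIntegral.integral_add (hv hF _ aT) (hv hG _ aT),
    intervalIntegral.integral_add (hv hF _ aT') (hv hG _ aT')]
  simp only [smul_eq_mul]
  ring

theorem J_inv {T : ℝ} (hT : 0 < T) : 4 ≤ ‖J (fun z => z⁻¹) (-T) T T‖ := by
  have hcont : ∀ z ∈ bd 0 T, ContinuousAt (fun z : ℂ => z⁻¹) z := by
    intro z hz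
    apply continuousAt_inv₀
    intro h
    have := bd_norm hz
    rw [h, norm_zero] at this
    linarith
  have hh : ∀ y : ℝ, |y| = T →
      IntervalIntegrable (fun x : ℝ => ((x : ℂ) + y * I)⁻¹) volume (-T) T := by
    intro y hy
    refine horiz_int (F := fun z => z⁻¹) (by linarith) ?_
    intro x h1 h2
    apply hcont
    refine ⟨?_, ?_, Or.inr ?_⟩
    · simp; exact abs_le.mpr ⟨h1, h2⟩
    · simp [hy]
    · simp [hy]
  have hv : ∀ x : ℝ, |x| = T →
      IntervalIntegrable (fun y : ℝ => ((x : ℂ) + y * I)⁻¹) volume (-T) T := by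
    intro x hx
    refine vert_int (F := fun z => z⁻¹) (by linarith) ?_
    intro y h1 h2
    apply hcont
    refine ⟨?_, ?_, Or.inl ?_⟩
    · simp [hx]
    · simp; exact abs_le.mpr ⟨h1, h2⟩
    · simp [hx]
  have aT : |T| = T := abs_of_nonneg hT.le
  have aT' : |-T| = T := by rw [abs_neg, aT]
  have key : J (fun z => z⁻¹) (-T) T T =
      ((∫ x in (-T)..T, 4 * T / (x ^ 2 + T ^ 2) : ℝ) : ℂ) * I := by
    have i3 : IntervalIntegrable (fun y : ℝ => I • ((T : ℂ) + y * I)⁻¹) volume (-T) T :=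
      (hv _ aT).smul I
    have i4 : IntervalIntegrable (fun y : ℝ => I • (((-T : ℝ) : ℂ) + y * I)⁻¹) volume (-T) T :=
      (hv _ aT').smul I
    have i12 : IntervalIntegrable (fun x : ℝ => ((x : ℂ) + ((-T : ℝ) : ℂ) * I)⁻¹ -
      ((x : ℂ) + (T : ℂ) * I)⁻¹) volume (-T) T := (hh _ aT').sub (hh _ aT)
    have i123 : IntervalIntegrable (fun x : ℝ => (((x : ℂ) + ((-T : ℝ) : ℂ) * I)⁻¹ -
      ((x : ℂ) + (T : ℂ) * I)⁻¹) + I • ((T : ℂ) + x * I)⁻¹) volume (-T) T := i12.add i3
    unfold J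
    beta_reduce
    rw [← intervalIntegral.integral_ofReal, ← intervalIntegral.integral_mul_const,
      ← intervalIntegral.integral_sub (hh _ aT') (hh _ aT), ← intervalIntegral.integral_smul,
      ← intervalIntegral.integral_smul,
      ← intervalIntegral.integral_add i12 i3,
      ← intervalIntegral.integral_sub i123 i4]
    apply intervalIntegral.integral_congr
    intro x _
    have hne : (x : ℂ) ^ 2 + (T : ℂ) ^ 2 ≠ 0 := by
      have : (x ^ 2 + T ^ 2 : ℝ) ≠ 0 := by positivity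
      exact_mod_cast this
    have f1 : ((x : ℂ) + ((-T : ℝ) : ℂ) * I)⁻¹ = ((x : ℂ) + T * I) / ((x : ℂ) ^ 2 + (T : ℂ) ^ 2) := by
      rw [eq_div_iff hne, inv_mul_eq_div, div_eq_iff]
      · push_cast
        linear_combination ((T : ℂ) ^ 2) * I_sq
      · intro h
        apply hne
        have : (x : ℂ) ^ 2 + (T : ℂ) ^ 2 = ((x : ℂ) + ((-T : ℝ) : ℂ) * I) * ((x : ℂ) + T * I) := by
          push_cast
          linear_combination (T : ℂ) ^ 2 * I_sq
        rw [this, h, zero_mul]
    have f2 : ((x : ℂ) + (T : ℂ) * I)⁻¹ = ((x : ℂ) - T * I) / ((x : ℂ) ^ 2 + (T : ℂ) ^ 2) := by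
      rw [eq_div_iff hne, inv_mul_eq_div, div_eq_iff]
      · linear_combination ((T : ℂ) ^ 2) * I_sq
      · intro h
        apply hne
        have : (x : ℂ) ^ 2 + (T : ℂ) ^ 2 = ((x : ℂ) - T * I) * ((x : ℂ) + T * I) := by
          linear_combination (T : ℂ) ^ 2 * I_sq
        rw [this, h, mul_zero]
    have f3 : ((T : ℂ) + (x : ℂ) * I)⁻¹ = ((T : ℂ) - x * I) / ((x : ℂ) ^ 2 + (T : ℂ) ^ 2) := by
      rw [eq_div_iff hne, inv_mul_eq_div, div_eq_iff]
      · linear_combination ((x : ℂ) ^ 2) * I_sq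
      · intro h
        apply hne
        have : (x : ℂ) ^ 2 + (T : ℂ) ^ 2 = ((T : ℂ) - x * I) * ((T : ℂ) + x * I) := by
          linear_combination (x : ℂ) ^ 2 * I_sq
        rw [this, h, mul_zero]
    have f4 : (((-T : ℝ) : ℂ) + (x : ℂ) * I)⁻¹ = (-(T : ℂ) - x * I) / ((x : ℂ) ^ 2 + (T : ℂ) ^ 2) := by
      rw [eq_div_iff hne, inv_mul_eq_div, div_eq_iff]
      · push_cast
        linear_combination ((x : ℂ) ^ 2) * I_sq
      · intro h
        apply hne
        have : (x : ℂ) ^ 2 + (T : ℂ) ^ 2 = (-(T : ℂ) - x * I) * (((-T : ℝ) : ℂ) + x * I) := by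
          push_cast
          linear_combination (x : ℂ) ^ 2 * I_sq
        rw [this, h, mul_zero]
    simp only [f1, f2, f3, f4, smul_eq_mul]
    push_cast
    field_simp
    ring
  rw [key, norm_mul, norm_I, mul_one, norm_real, Real.norm_eq_abs]
  refine le_trans ?_ (le_abs_self _)
  have h1 : (∫ _ in (-T)..T, 2 / T : ℝ) = 4 := by
    rw [intervalIntegral.integral_const, smul_eq_mul]
    field_simp
    norm_num
  rw [← h1]
  apply intervalIntegral.integral_mono_on (by linarith)
  · exact intervalIntegrable_const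
  · apply Continuous.intervalIntegrable
    apply Continuous.div continuous_const (by fun_prop)
    intro x
    positivity
  · intro x hx
    rw [div_le_div_iff₀ hT (by positivity)]
    have : x ^ 2 ≤ T ^ 2 := by
      apply sq_le_sq'
      · linarith [hx.1]
      · exact hx.2
    nlinarith

theorem constant {a : ℝ} {E : Set ℝ} (ha : 0 < a) (ha' : a ≤ 1 / 10)
    (hq : 2 * a * √(24 / a) < 1) (hE : IsSelf a E) (hcl : IsClosed (cop E 0 1))
    {f : ℂ → ℂ} {u : ℂ → ℝ} (hf : DifferentiableOn ℂ f (cop E 0 1)ᶜ)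
    (hu : HarmonicOnNhd u (cop E 0 1)ᶜ) (hfu : ∀ z ∈ (cop E 0 1)ᶜ, ‖f z‖ ^ 2 ≤ u z)
    {z z' : ℂ} (hz : z ∈ (cop E 0 1)ᶜ) (hz' : z' ∈ (cop E 0 1)ᶜ) : f z = f z' := by
  have hopen : IsOpen (cop E 0 1)ᶜ := hcl.isOpen_compl
  have h0 : ∀ z ∉ cop E 0 1, 0 ≤ u z := fun z hz => le_trans (by positivity) (hfu z hz)
  -- vanishing of the integrals of the slopes
  have hsl : ∀ p ∈ (cop E 0 1)ᶜ, ∀ w ∉ cop E 0 1, DifferentiableAt ℂ (dslope f p) w := by
    intro p hp w hw
    exact ((Complex.differentiableOn_dslope (hopen.mem_nhds hp)).mpr hf).differentiableAt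
      (hopen.mem_nhds hw)
  have hJ : ∀ p ∈ (cop E 0 1)ᶜ, ∀ T : ℝ, 1 ≤ T → J (dslope f p) (-T) T T = 0 := by
    intro p hp T hT
    obtain ⟨δ, hδ, hball⟩ := Metric.isOpen_iff.mp hopen p hp
    have hcb : closedBall p (δ / 2) ⊆ (cop E 0 1)ᶜ :=
      (closedBall_subset_ball (by linarith)).trans hball
    obtain ⟨M, hM⟩ := (isCompact_closedBall p (δ / 2)).exists_bound_of_continuousOn
      (f := dslope f p) (fun w hw => (hsl p hp w (hcb hw)).continuousAt.continuousWithinAt)
    set k : ℝ := 2 / (δ / 2) ^ 2 with hk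
    have hk0 : 0 < k := by positivity
    refine J_eq_zero (u := fun w => k * u w + (k * ‖f p‖ ^ 2 + M ^ 2)) ha ha' hq hE
      (fun w hw => hsl p hp w hw) ?_ ?_ hT
    · intro w hw
      have h1 : HarmonicAt (fun w => k • u w) w := HarmonicAt.const_smul (hu w hw)
      have h2 : HarmonicAt (fun _ : ℂ => (k * ‖f p‖ ^ 2 + M ^ 2 : ℝ)) w := by
        have := AnalyticAt.harmonicAt_re (f := fun _ : ℂ => ((k * ‖f p‖ ^ 2 + M ^ 2 : ℝ) : ℂ)) (x := w)
          analyticAt_const
        exact this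
      exact h1.add h2
    · intro w hw
      by_cases hwp : w ∈ closedBall p (δ / 2)
      · have h1 := hM w hwp
        have h2 : ‖dslope f p w‖ ^ 2 ≤ M ^ 2 := pow_le_pow_left₀ (norm_nonneg _) h1 2
        have h3 := h0 w hw
        have h4 : 0 ≤ k * u w := by positivity
        have h5 : 0 ≤ k * ‖f p‖ ^ 2 := by positivity
        linarith
      · rw [mem_closedBall, dist_eq_norm, not_le] at hwp
        have hne : w ≠ p := by
          rintro rfl
          rw [sub_self, norm_zero] at hwp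
          linarith
        have hpos : 0 < ‖w - p‖ := by linarith
        rw [dslope_of_ne _ hne, slope_def_module, norm_smul, norm_inv, mul_pow, inv_pow]
        have h1 : ‖f w - f p‖ ^ 2 ≤ 2 * (u w + ‖f p‖ ^ 2) := by
          have h2 := norm_sub_le (f w) (f p)
          have h3 := hfu w hw
          have h4 : ‖f w - f p‖ ^ 2 ≤ (‖f w‖ + ‖f p‖) ^ 2 := pow_le_pow_left₀ (norm_nonneg _) h2 2
          nlinarith [sq_nonneg (‖f w‖ - ‖f p‖)]
        have h2 : (‖w - p‖ ^ 2)⁻¹ ≤ ((δ / 2) ^ 2)⁻¹ := by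
          apply inv_anti₀ (by positivity)
          exact pow_le_pow_left₀ (by positivity) hwp.le 2
        calc (‖w - p‖ ^ 2)⁻¹ * ‖f w - f p‖ ^ 2 ≤ ((δ / 2) ^ 2)⁻¹ * (2 * (u w + ‖f p‖ ^ 2)) := by
              apply mul_le_mul h2 h1 (by positivity) (by positivity)
          _ = k * u w + k * ‖f p‖ ^ 2 := by rw [hk]; ring
          _ ≤ _ := by
            have : 0 ≤ M ^ 2 := sq_nonneg M
            linarith
  -- growth
  set C : ℝ := 20000 * (u I + u (-I)) with hC
  have hI : ∀ w : ℂ, w.im ≠ 0 → 0 ≤ u w := fun w hw => h0 w (fun h => hw (mem_cop_im h))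
  have hC0 : 0 ≤ C := by
    have h1 := hI I (by simp)
    have h2 := hI (-I) (by simp)
    positivity
  have hbdΩ : ∀ T : ℝ, 1 ≤ T → ∀ w ∈ bd 0 T, w ∉ cop E 0 1 := by
    intro T hT w hw h
    have h1 := mem_cop_im h
    have h2 := mem_cop_re hE zero_le_one h
    rcases hw.2.2 with h3 | h3
    · linarith
    · rw [h1, abs_zero] at h3; linarith
  have hfT : ∀ T : ℝ, 1 ≤ T → ∀ w ∈ bd 0 T, ‖f w‖ ≤ √(C * T) := by
    intro T hT w hw
    apply Real.le_sqrt_of_sq_le
    exact (hfu w (hbdΩ T hT w hw)).trans (growth hE hu h0 hT hw)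
  -- the comparison function
  set A : ℝ := 4 * ‖z - z'‖ with hA
  set D : ℝ := 2 * (‖f z‖ * ‖z‖ + ‖f z'‖ * ‖z'‖) with hD
  have hest : ∀ T : ℝ, 1 ≤ T → 2 * (‖z‖ + ‖z'‖) + 1 ≤ T →
      ‖f z - f z'‖ * 4 ≤ 8 * T * ((A * √(C * T) + D) / T ^ 2) := by
    intro T hT hT2
    have hT0 : 0 < T := by linarith
    set G : ℂ → ℂ := fun w => dslope f z w + (-1) * dslope f z' w + (f z - f z') * w⁻¹ with hG
    have hcinv : ∀ w ∈ bd 0 T, ContinuousAt (fun w : ℂ => w⁻¹) w := by
      intro w hw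
      apply continuousAt_inv₀
      intro h
      have := bd_norm hw
      rw [h, norm_zero] at this
      linarith
    have hJG : J G (-T) T T = (f z - f z') * J (fun w => w⁻¹) (-T) T T := by
      have c1 : ∀ w ∈ bd 0 T, ContinuousAt (dslope f z) w :=
        fun w hw => (hsl z hz w (hbdΩ T hT w hw)).continuousAt
      have c2 : ∀ w ∈ bd 0 T, ContinuousAt (fun w => (-1 : ℂ) * dslope f z' w) w :=
        fun w hw => continuousAt_const.mul (hsl z' hz' w (hbdΩ T hT w hw)).continuousAt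
      have c3 : ∀ w ∈ bd 0 T, ContinuousAt (fun w => (f z - f z') * w⁻¹) w :=
        fun w hw => continuousAt_const.mul (hcinv w hw)
      have c12 : ∀ w ∈ bd 0 T, ContinuousAt (fun w => dslope f z w + (-1) * dslope f z' w) w :=
        fun w hw => (c1 w hw).add (c2 w hw)
      rw [hG, J_add hT0.le c12 c3, J_add hT0.le c1 c2,
        J_const_mul, J_const_mul, hJ z hz T hT, hJ z' hz' T hT]
      ring
    have hGb : ∀ w ∈ bd 0 T, ‖G w‖ ≤ (A * √(C * T) + D) / T ^ 2 := by
      intro w hw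
      have hw0 : T ≤ ‖w‖ := bd_norm hw
      have hwz : T / 2 ≤ ‖w - z‖ := by
        have := norm_sub_norm_le w z
        have := norm_nonneg z'
        linarith
      have hwz' : T / 2 ≤ ‖w - z'‖ := by
        have := norm_sub_norm_le w z'
        have := norm_nonneg z
        linarith
      have n0 : w ≠ 0 := by intro h; rw [h, norm_zero] at hw0; linarith
      have n1 : w - z ≠ 0 := by intro h; rw [h, norm_zero] at hwz; linarith
      have n2 : w - z' ≠ 0 := by intro h; rw [h, norm_zero] at hwz'; linarith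
      have e1 : G w = f w * ((z - z') * ((w - z)⁻¹ * (w - z')⁻¹)) - f z * (z * (w⁻¹ * (w - z)⁻¹)) +
          f z' * (z' * (w⁻¹ * (w - z')⁻¹)) := by
        rw [hG]
        simp only
        rw [dslope_of_ne _ (sub_ne_zero.mp n1), dslope_of_ne _ (sub_ne_zero.mp n2),
          slope_def_module, slope_def_module, smul_eq_mul, smul_eq_mul]
        field_simp
        ring
      have i0 : ‖w⁻¹‖ ≤ T⁻¹ := by rw [norm_inv]; exact inv_anti₀ hT0 hw0
      have i1 : ‖(w - z)⁻¹‖ ≤ (T / 2)⁻¹ := by rw [norm_inv]; exact inv_anti₀ (by positivity) hwz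
      have i2 : ‖(w - z')⁻¹‖ ≤ (T / 2)⁻¹ := by rw [norm_inv]; exact inv_anti₀ (by positivity) hwz'
      have b1 : ‖f w * ((z - z') * ((w - z)⁻¹ * (w - z')⁻¹))‖ ≤
          √(C * T) * (‖z - z'‖ * ((T / 2)⁻¹ * (T / 2)⁻¹)) := by
        rw [norm_mul, norm_mul, norm_mul]
        have := hfT T hT w hw
        gcongr
      have b2 : ‖f z * (z * (w⁻¹ * (w - z)⁻¹))‖ ≤ ‖f z‖ * (‖z‖ * (T⁻¹ * (T / 2)⁻¹)) := by
        rw [norm_mul, norm_mul, norm_mul]
        gcongr
      have b3 : ‖f z' * (z' * (w⁻¹ * (w - z')⁻¹))‖ ≤ ‖f z'‖ * (‖z'‖ * (T⁻¹ * (T / 2)⁻¹)) := by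
        rw [norm_mul, norm_mul, norm_mul]
        gcongr
      rw [e1]
      calc _ ≤ √(C * T) * (‖z - z'‖ * ((T / 2)⁻¹ * (T / 2)⁻¹)) + ‖f z‖ * (‖z‖ * (T⁻¹ * (T / 2)⁻¹)) +
            ‖f z'‖ * (‖z'‖ * (T⁻¹ * (T / 2)⁻¹)) := by
            refine (norm_add_le _ _).trans (add_le_add ?_ b3)
            exact (norm_sub_le _ _).trans (add_le_add b1 b2)
        _ = (A * √(C * T) + D) / T ^ 2 := by
            rw [hA, hD]
            field_simp
            ring
    have h1 := J_bound (F := G) (c := 0) hT0.le hGb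
    rw [zero_sub, zero_add, hJG, norm_mul] at h1
    refine le_trans ?_ h1
    exact mul_le_mul_of_nonneg_left (J_inv hT0) (norm_nonneg _)
  -- let T → ∞
  have hlim : Tendsto (fun T : ℝ => 8 * T * ((A * √(C * T) + D) / T ^ 2)) atTop (𝓝 0) := by
    have h1 : Tendsto (fun T : ℝ => 8 * (A * √C) * (√T)⁻¹ + 8 * D * T⁻¹) atTop (𝓝 0) := by
      have h2 : Tendsto (fun T : ℝ => (√T)⁻¹) atTop (𝓝 0) :=
        tendsto_inv_atTop_zero.comp Real.tendsto_sqrt_atTop
      have h3 := (h2.const_mul (8 * (A * √C))).add (tendsto_inv_atTop_zero.const_mul (8 * D))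
      simpa using h3
    refine h1.congr' ?_
    filter_upwards [eventually_gt_atTop 0] with T hT
    rw [Real.sqrt_mul hC0]
    have h4 : √T * √T = T := Real.mul_self_sqrt hT.le
    have h5 : 0 < √T := Real.sqrt_pos.mpr hT
    have h6 : T⁻¹ = (√T)⁻¹ * (√T)⁻¹ := by rw [← mul_inv, h4]
    have h7 : (√T)⁻¹ = √T / T := by
      rw [eq_div_iff hT.ne', inv_mul_eq_div, div_eq_iff h5.ne', h4]
    rw [h7]
    field_simp
  have hfin : ‖f z - f z'‖ * 4 ≤ 0 := by
    apply ge_of_tendsto hlim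
    filter_upwards [eventually_ge_atTop (1 : ℝ), eventually_ge_atTop (2 * (‖z‖ + ‖z'‖) + 1)] with T h1 h2
    exact hest T h1 h2
  have : ‖f z - f z'‖ ≤ 0 := by linarith
  exact sub_eq_zero.mp (norm_le_zero_iff.mp this)

end Pool.Agent.V1171.Hardy
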